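import Pool.Agent.Lib.MP_3e612f_nt.ZE.G.Lim
import Pool.Agent.Lib.MP_3e612f_nt.ZE.A.Lam2

/-! The system of the Moebius function. -/

set_option autoImplicit false

namespace Pool.Agent.Lib.MP_3e612f_nt.ZE

open Finset MeasureTheory Filter Topology

/-- Two probability measures on a compact metrizable space with the same integrals of continuous functions are equal (`ext_of_forall_integral_eq_of_IsFiniteMeasure`). -/
theorem meas_ext {X : Type} [TopologicalSpace X] [CompactSpace X] [T2Space X] [SecondCountableTopology X] [MeasurableSpace X] [BorelSpace X]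
    (m m' : Measure X) [IsProbabilityMeasure m] [IsProbabilityMeasure m'] (h : ∀ f : X → ℝ, Continuous f → ∫ x, f x ∂m = ∫ x, f x ∂m') : m = m' :=
  ext_of_forall_integral_eq_of_IsFiniteMeasure fun f => h f f.continuous

private abbrev sys_X : Type := ℤ → Set.Icc (-1 : ℝ) 1

private theorem sys_mu (n : ℕ) : (ArithmeticFunction.moebius n : ℝ) ∈ Set.Icc (-1 : ℝ) 1 := by
  have h : |ArithmeticFunction.moebius n| ≤ 1 := ArithmeticFunction.abs_moebius_le_one
  rw [abs_le] at h
  exact ⟨by exact_mod_cast h.1, by exact_mod_cast h.2⟩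

private def sys_θ (n : ℕ) : sys_X := fun i => ⟨_, sys_mu ((n : ℤ) + i).toNat⟩

private def sys_τ (k : ℤ) (x : sys_X) : sys_X := fun i => x (i + k)

private theorem sys_cont (k : ℤ) : Continuous (sys_τ k) :=
  continuous_pi fun i => continuous_apply (i + k)

private theorem sys_add (a b : ℤ) (x : sys_X) : sys_τ (a + b) x = sys_τ a (sys_τ b x) := by
  funext i
  change x (i + (a + b)) = x (i + a + b)
  rw [add_assoc]

private theorem sys_zero (x : sys_X) : sys_τ 0 x = x := by
  funext i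
  change x (i + 0) = x i
  rw [add_zero]

private theorem sys_one (n : ℕ) : sys_τ 1 (sys_θ n) = sys_θ (n + 1) := by
  funext i
  apply Subtype.ext
  change (ArithmeticFunction.moebius ((n : ℤ) + (i + 1)).toNat : ℝ) =
    (ArithmeticFunction.moebius (((n + 1 : ℕ) : ℤ) + i).toNat : ℝ)
  rw [show (n : ℤ) + (i + 1) = ((n + 1 : ℕ) : ℤ) + i by push_cast; ring]

private theorem sys_mp (V : Ultrafilter ℕ) (hV : (V : Filter ℕ) ≤ atTop) (m : Measure sys_X)
    [IsProbabilityMeasure m]
    (hm : ∀ f : sys_X → ℝ, Continuous f → ∫ x, f x ∂m = Lam V (fun n => f (sys_θ n))) (k : ℤ) :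
    MeasurePreserving (sys_τ k) m m := by
  have hk : ∀ k : ℤ, Measurable (sys_τ k) := fun k => (sys_cont k).measurable
  have h1 : MeasurePreserving (sys_τ 1) m m := by
    refine ⟨hk 1, ?_⟩
    have : IsProbabilityMeasure (m.map (sys_τ 1)) := Measure.isProbabilityMeasure_map (hk 1).aemeasurable
    refine meas_ext _ _ fun f hf => ?_
    rw [integral_map_of_stronglyMeasurable (hk 1) hf.stronglyMeasurable]
    rw [hm f hf]
    have h2 := hm (fun x => f (sys_τ 1 x)) (hf.comp (sys_cont 1))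
    rw [h2]
    obtain ⟨C, hC⟩ := (isCompact_univ (X := sys_X)).exists_bound_of_continuousOn hf.continuousOn
    have h3 := lam_shift1 V hV (fun n => f (sys_θ n)) C fun n => hC _ (Set.mem_univ _)
    rw [← h3]
    congr 1
    funext n
    rw [sys_one]
  have hn : ∀ n : ℕ, MeasurePreserving (sys_τ (n : ℤ)) m m := by
    intro n
    induction n with
    | zero =>
      have e : sys_τ ((0 : ℕ) : ℤ) = id := funext fun x => sys_zero x
      rw [e]
      exact MeasurePreserving.id m
    | succ n ih =>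
      have e : sys_τ ((n + 1 : ℕ) : ℤ) = sys_τ (n : ℤ) ∘ sys_τ 1 := by
        funext x
        rw [Function.comp_apply, ← sys_add]
        push_cast
        rfl
      rw [e]
      exact ih.comp h1
  rcases Int.eq_nat_or_neg k with ⟨n, rfl | rfl⟩
  · exact hn n
  · refine ⟨hk _, ?_⟩
    have h2 := (hn n).map_eq
    conv_lhs => rw [← h2]
    rw [Measure.map_map (hk _) (hk _)]
    have e : sys_τ (-(n : ℤ)) ∘ sys_τ (n : ℤ) = id := by
      funext x
      rw [Function.comp_apply, ← sys_add, neg_add_cancel]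
      exact sys_zero x
    rw [e, Measure.map_id]

/-- `X = ℤ → Icc (-1) 1` (compact), `τ k x = fun i => x (i + k)`, `F x = x 0`, `θ n = fun i => μ((n+i).toNat)` (in `Icc (-1) 1`: `ArithmeticFunction.abs_moebius_le_one`), `m` from `exists_lim`. `τ 1 (θ n) = θ (n+1)`, so `∫ f ∘ τ 1 dm = ∫ f dm` for continuous `f` (`lam_shift1`), so `τ 1` preserves `m` (`meas_ext`),
and so do its inverse and all `τ n`. For `φ` continuous on `Fin J → ℝ` the function `x ↦ φ(j ↦ x (p j))` is continuous and its value at `θ n` is `φ(j ↦ μ(n + p j))`. -/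
theorem exists_sys (V : Ultrafilter ℕ) (hV : (V : Filter ℕ) ≤ atTop) :
    ∃ (X : Type) (_ : MeasurableSpace X) (m : Measure X) (τ : ℤ → X → X) (F : X → ℝ), IsProbabilityMeasure m ∧ IsAct m τ ∧ Measurable F ∧ (∀ x, |F x| ≤ 1) ∧
      ∀ (J : ℕ) (φ : (Fin J → ℝ) → ℝ), Continuous φ → ∀ p : ℕ,
        ∫ x, φ (fun j => F (τ ((p : ℤ) * ((j : ℕ) : ℤ)) x)) ∂m = Lam V (fun n => φ (fun j => (ArithmeticFunction.moebius (n + p * (j : ℕ)) : ℝ))) := by
  obtain ⟨m, hm1, hm⟩ := exists_lim V hV sys_θ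
  have hF : Continuous fun x : sys_X => ((x 0 : Set.Icc (-1 : ℝ) 1) : ℝ) :=
    continuous_subtype_val.comp (continuous_apply 0)
  refine ⟨sys_X, inferInstance, m, sys_τ, fun x => ((x 0 : Set.Icc (-1 : ℝ) 1) : ℝ), hm1,
    ⟨sys_zero, sys_add, sys_mp V hV m hm⟩, hF.measurable, fun x => abs_le.2 (x 0).2, ?_⟩
  intro J φ hφ p
  have h := hm (fun x => φ (fun j : Fin J =>
    ((sys_τ ((p : ℤ) * ((j : ℕ) : ℤ)) x 0 : Set.Icc (-1 : ℝ) 1) : ℝ)))
    (hφ.comp (continuous_pi fun j => hF.comp (sys_cont _)))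
  rw [h]
  congr 1
  funext n
  congr 1
  funext j
  change (ArithmeticFunction.moebius ((n : ℤ) + (0 + (p : ℤ) * ((j : ℕ) : ℤ))).toNat : ℝ) = _
  rw [show (n : ℤ) + (0 + (p : ℤ) * ((j : ℕ) : ℤ)) = ((n + p * (j : ℕ) : ℕ) : ℤ) by push_cast; ring,
    Int.toNat_natCast]

end Pool.Agent.Lib.MP_3e612f_nt.ZE
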