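import Pool.Agent.Lib.MP_3e612f_nt.ZE.G.U
import Pool.Agent.Lib.MP_3e612f_nt.ZE.G.Sys
import Pool.Agent.Lib.MP_3e612f_nt.ZE.A.Tao

/-! Theorem L: the Moebius function and exponentially many words in short windows. -/

set_option autoImplicit false

namespace Pool.Agent.Lib.MP_3e612f_nt.ZE

open Finset MeasureTheory Filter Topology

/-- the maximum over the words as a function of the vector -/
private noncomputable def lPhi (W : Finset (ℕ → ℂ)) (J : ℕ) (v : Fin J → ℝ) : ℝ :=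
  W.fold max 0 (fun w => ‖(∑ j : Fin J, w (j : ℕ) * ((v j : ℝ) : ℂ)) / (J : ℂ)‖)

private theorem lPhi_cont (W : Finset (ℕ → ℂ)) (J : ℕ) : Continuous (lPhi W J) := by
  unfold lPhi
  refine fm_cont W _ fun w _ => ?_
  refine Continuous.norm (Continuous.div_const ?_ _)
  refine continuous_finsetSum _ fun j _ => ?_
  exact continuous_const.mul (Complex.continuous_ofReal.comp (continuous_apply j))

private theorem lPhi_neg (W : Finset (ℕ → ℂ)) (J : ℕ) (v : Fin J → ℝ) :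
    lPhi W J (fun j => - v j) = lPhi W J v := by
  unfold lPhi
  congr 1
  funext w
  have h : (∑ j : Fin J, w (j : ℕ) * (((- v j : ℝ)) : ℂ)) =
      - ∑ j : Fin J, w (j : ℕ) * ((v j : ℝ) : ℂ) := by
    rw [← Finset.sum_neg_distrib]
    refine Finset.sum_congr rfl fun j _ => ?_
    push_cast
    ring
  rw [h, neg_div, norm_neg]

private theorem lPhi_le (W : Finset (ℕ → ℂ)) (hW : ∀ w ∈ W, ∀ n, ‖w n‖ ≤ 1) (J : ℕ)
    (v : Fin J → ℝ) (hv : ∀ j, |v j| ≤ 1) : lPhi W J v ≤ 1 := by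
  unfold lPhi
  refine fm_le W _ 1 zero_le_one fun w hw => ?_
  have h1 : ‖∑ j : Fin J, w (j : ℕ) * ((v j : ℝ) : ℂ)‖ ≤ J := by
    refine (norm_sum_le _ _).trans ?_
    have h2 : ∀ j ∈ (Finset.univ : Finset (Fin J)), ‖w (j : ℕ) * ((v j : ℝ) : ℂ)‖ ≤ 1 := by
      intro j _
      rw [norm_mul, Complex.norm_real, Real.norm_eq_abs]
      exact mul_le_one₀ (hW w hw _) (abs_nonneg _) (hv j)
    refine (Finset.sum_le_sum h2).trans ?_
    rw [Finset.sum_const, Finset.card_univ, Fintype.card_fin, nsmul_eq_mul, mul_one]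
  rw [norm_div, Complex.norm_natCast]
  exact div_le_one_of_le₀ h1 (Nat.cast_nonneg J)

/-- Theorem L. `exists_sys`, `thmU` for `ε/2`; given `J ≥ 1`, `W`: `φ(v) = W.fold max 0 (fun w => ‖(∑_{j<J} w_j v_j)/J‖)` on real vectors `v` is continuous (`fm_cont`), on integer vectors truncate: use `φ' v = min 1 (φ v)` so that `|φ'| ≤ 1` for all `v` (the values at `±1, 0`-vectors do not change); `tao` with `ε/2` and `P₀` = the bound of `thmU`. -/
theorem thmL (V : Ultrafilter ℕ) (hV : (V : Filter ℕ) ≤ atTop) (ε : ℝ) (hε : 0 < ε) :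
    ∃ (K : ℕ) (t δ : ℝ), 0 < t ∧ 0 < δ ∧ ∀ Hmax : ℕ, ∃ J₀ : ℕ, 1 ≤ J₀ ∧ ∀ J ≥ J₀, ∀ W : Finset (ℕ → ℂ), (∀ w ∈ W, ∀ n, ‖w n‖ ≤ 1) →
      (W.card : ℝ) ≤ Real.exp (δ * J) →
      (∀ w ∈ W, ∃ H : ℕ, 1 ≤ H ∧ H ≤ Hmax ∧ (∑ j ∈ range J, psi H K w j) / (J : ℝ) ≤ t) →
      Lam V (fun n => W.fold max 0 (fun w => ‖(∑ j ∈ range J, w j * ((ArithmeticFunction.moebius (n + j) : ℝ) : ℂ)) / (J : ℂ)‖)) ≤ ε := by
  obtain ⟨X, mX, m, τ, F, hm, hτ, hFm, hFb, hint⟩ := exists_sys V hV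
  obtain ⟨K, t, δ, ht, hδ, hU⟩ := thmU hτ F hFm hFb (ε / 2) (half_pos hε)
  refine ⟨K, t, δ, ht, hδ, fun Hmax => ?_⟩
  obtain ⟨J₀, hJ₀⟩ := hU Hmax
  refine ⟨max J₀ 1, le_max_right _ _, fun J hJ W hW hcard hpsi => ?_⟩
  have hJ1 : 1 ≤ J := (le_max_right _ _).trans hJ
  obtain ⟨P₀, hP₀⟩ := eventually_atTop.1
    (hJ₀ J ((le_max_left _ _).trans hJ) W hW hcard hpsi)
  obtain ⟨φ, hφ⟩ : ∃ φ : (Fin J → ℤ) → ℝ, φ = fun v => min 1 (lPhi W J (fun j => (v j : ℝ))) :=
    ⟨_, rfl⟩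
  have hφ1 : ∀ v, φ (fun j => - v j) = φ v := by
    intro v
    rw [hφ]
    dsimp only
    have h : (fun j : Fin J => ((- v j : ℤ) : ℝ)) = fun j => - ((v j : ℝ)) := by
      funext j
      push_cast
      rfl
    rw [h, lPhi_neg]
  have hφ2 : ∀ v, |φ v| ≤ 1 := by
    intro v
    rw [hφ]
    dsimp only
    have h : 0 ≤ lPhi W J (fun j => (v j : ℝ)) := fm_nonneg W _
    rw [abs_of_nonneg (le_min zero_le_one h)]
    exact min_le_left _ _
  obtain ⟨P, hP, hT⟩ := tao V hV J hJ1 φ hφ1 hφ2 (ε / 2) (half_pos hε) P₀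
  have hval : ∀ g : Fin J → ℕ, φ (fun j => ArithmeticFunction.moebius (g j)) =
      lPhi W J (fun j => (ArithmeticFunction.moebius (g j) : ℝ)) := by
    intro g
    rw [hφ]
    dsimp only
    refine min_eq_right (lPhi_le W hW J _ fun j => ?_)
    have h := ArithmeticFunction.abs_moebius_le_one (n := g j)
    exact_mod_cast h
  have h1 : (fun n => W.fold max 0 (fun w =>
      ‖(∑ j ∈ range J, w j * ((ArithmeticFunction.moebius (n + j) : ℝ) : ℂ)) / (J : ℂ)‖)) =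
      fun n => φ (fun j => ArithmeticFunction.moebius (n + j)) := by
    funext n
    rw [hval fun j => n + j]
    unfold lPhi
    congr 1
    funext w
    rw [Finset.sum_range]
  have h2 : ∀ p : ℕ, Lam V (fun n => φ (fun j => ArithmeticFunction.moebius (n + p * j))) =
      ∫ x, W.fold max 0 (fun w =>
        ‖(∑ j ∈ range J, w j * (F (τ ((p : ℤ) * (j : ℤ)) x) : ℂ)) / (J : ℂ)‖) ∂m := by
    intro p
    have h3 := hint J (lPhi W J) (lPhi_cont W J) p
    have h4 : (fun n => φ (fun j => ArithmeticFunction.moebius (n + p * j))) =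
        fun n => lPhi W J (fun j => (ArithmeticFunction.moebius (n + p * (j : ℕ)) : ℝ)) := by
      funext n
      exact hval fun j => n + p * j
    rw [h4, ← h3]
    congr 1
    funext x
    unfold lPhi
    congr 1
    funext w
    rw [Finset.sum_range]
  rw [h1]
  have h5 : pav P (fun p => Lam V (fun n => φ (fun j => ArithmeticFunction.moebius (n + p * j)))) ≤
      ε / 2 := by
    simp only [h2]
    exact hP₀ P hP
  have h6 := (abs_le.1 hT).2
  linarith

end Pool.Agent.Lib.MP_3e612f_nt.ZE
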