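import Pool.Agent.Lib.MP_3e612f_nt.ZE.A.Lam1

/-! The limit of the logarithmic empirical measures along an ultrafilter. -/

set_option autoImplicit false

namespace Pool.Agent.Lib.MP_3e612f_nt.ZE

open Finset MeasureTheory Filter Topology

/-- the logarithmic empirical measure -/
private noncomputable def limM {X : Type} [MeasurableSpace X] (θ : ℕ → X) (N : ℕ) : Measure X :=
  ∑ n ∈ range N, ENNReal.ofReal (1 / ((n : ℝ) + 1) / lw N) • Measure.dirac (θ n)

private theorem limM_prob {X : Type} [MeasurableSpace X] (θ : ℕ → X) {N : ℕ} (hN : 1 ≤ N) :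
    IsProbabilityMeasure (limM θ N) := by
  constructor
  have h0 := lw_pos hN
  unfold limM
  rw [Measure.finsetSum_apply]
  have h1 : ∀ n ∈ range N, (ENNReal.ofReal (1 / ((n : ℝ) + 1) / lw N) • Measure.dirac (θ n)) Set.univ =
      ENNReal.ofReal (1 / ((n : ℝ) + 1) / lw N) := by
    intro n _
    rw [Measure.smul_apply, measure_univ, smul_eq_mul, mul_one]
  rw [Finset.sum_congr rfl h1, ← ENNReal.ofReal_sum_of_nonneg (fun n _ => by positivity), ← Finset.sum_div]
  have h2 : (∑ n ∈ range N, 1 / ((n : ℝ) + 1)) / lw N = 1 := div_self h0.ne'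
  rw [h2, ENNReal.ofReal_one]

private theorem limM_int {X : Type} [TopologicalSpace X] [CompactSpace X] [T2Space X] [SecondCountableTopology X]
    [MeasurableSpace X] [BorelSpace X] (θ : ℕ → X) {N : ℕ} (hN : 1 ≤ N) (f : X → ℝ) (hf : Continuous f) :
    ∫ x, f x ∂(limM θ N) = lav N (fun n => f (θ n)) := by
  have h0 := lw_pos hN
  unfold limM
  rw [integral_finsetSum_measure]
  · unfold lav
    rw [Finset.sum_div]
    refine Finset.sum_congr rfl fun n _ => ?_
    rw [integral_smul_measure, integral_dirac, ENNReal.toReal_ofReal (by positivity), smul_eq_mul]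
    ring
  · intro n _
    refine Integrable.smul_measure ?_ ENNReal.ofReal_ne_top
    exact integrable_dirac (by simp)

/-- `m_N = ∑_{n<N} (1/((n+1) lw N)) δ_{θ(n)}` for `N ≥ 1` (a Dirac measure for `N = 0`); `ProbabilityMeasure X` is compact (instance of Mathlib.MeasureTheory.Measure.Prokhorov), so `V.map m` converges to some `m` (`Ultrafilter.le_nhds_lim` or `isCompact_univ.ultrafilter_le_nhds`);
`∫ f dm_N = lav N (f ∘ θ)` for `N ≥ 1` (`integral_finset_sum_measure`, `integral_smul_measure`, `integral_dirac`), `ProbabilityMeasure.tendsto_iff_forall_integral_tendsto`, `lam_eq`. -/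
theorem exists_lim {X : Type} [TopologicalSpace X] [CompactSpace X] [T2Space X] [SecondCountableTopology X] [MeasurableSpace X] [BorelSpace X]
    (V : Ultrafilter ℕ) (hV : (V : Filter ℕ) ≤ atTop) (θ : ℕ → X) :
    ∃ m : Measure X, IsProbabilityMeasure m ∧ ∀ f : X → ℝ, Continuous f → ∫ x, f x ∂m = Lam V (fun n => f (θ n)) := by
  classical
  let m : ℕ → ProbabilityMeasure X := fun N =>
    if h : 1 ≤ N then ⟨limM θ N, limM_prob θ h⟩ else ⟨Measure.dirac (θ 0), inferInstance⟩
  obtain ⟨μ, -, hμ⟩ := isCompact_univ.ultrafilter_le_nhds (V.map m) (by simp)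
  have ht : Tendsto m V (𝓝 μ) := hμ
  refine ⟨(μ : Measure X), inferInstance, fun f hf => ?_⟩
  have h1 := ProbabilityMeasure.tendsto_iff_forall_integral_tendsto.1 ht (BoundedContinuousFunction.mkOfCompact ⟨f, hf⟩)
  have h2 : ∀ᶠ N in (V : Filter ℕ), ∫ x, (BoundedContinuousFunction.mkOfCompact ⟨f, hf⟩ : X → ℝ) x ∂(m N : Measure X) =
      lav N (fun n => f (θ n)) := by
    have h0 : ∀ᶠ N in (V : Filter ℕ), 1 ≤ N := hV (eventually_ge_atTop 1)
    refine h0.mono fun N hN => ?_
    have e : (m N : Measure X) = limM θ N := by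
      simp only [m, dif_pos hN]
      rfl
    rw [e]
    exact limM_int θ hN f hf
  have h3 := h1.congr' h2
  exact (lam_eq V _ _ h3).symm

end Pool.Agent.Lib.MP_3e612f_nt.ZE
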