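import Pool.Agent.Lib.MP_3e612f_nt.ZE.Defs

/-! `W.fold max 0 f`, the maximum of `0` and of the `f w`, `w ∈ W`; averages over the primes. -/

set_option autoImplicit false

namespace Pool.Agent.Lib.MP_3e612f_nt.ZE

open Finset MeasureTheory Filter Topology

/-- `Finset.fold_max_le` -/
theorem fm_le {α : Type} (W : Finset α) (f : α → ℝ) (c : ℝ) (hc : 0 ≤ c) (h : ∀ w ∈ W, f w ≤ c) : W.fold max 0 f ≤ c :=
  (Finset.fold_max_le c).2 ⟨hc, h⟩

theorem le_fm {α : Type} (W : Finset α) (f : α → ℝ) {w : α} (hw : w ∈ W) : f w ≤ W.fold max 0 f :=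
  (Finset.le_fold_max (f w)).2 (Or.inr ⟨w, hw, le_rfl⟩)

theorem fm_nonneg {α : Type} (W : Finset α) (f : α → ℝ) : 0 ≤ W.fold max 0 f :=
  (Finset.le_fold_max 0).2 (Or.inl le_rfl)

theorem fm_mono {α : Type} (W : Finset α) (f g : α → ℝ) (h : ∀ w ∈ W, f w ≤ g w) : W.fold max 0 f ≤ W.fold max 0 g :=
  fm_le W f _ (fm_nonneg W g) fun w hw => (h w hw).trans (le_fm W g hw)

theorem fm_add {α : Type} (W : Finset α) (f g : α → ℝ) : W.fold max 0 (fun w => f w + g w) ≤ W.fold max 0 f + W.fold max 0 g :=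
  fm_le W _ _ (add_nonneg (fm_nonneg W f) (fm_nonneg W g)) fun w hw =>
    add_le_add (le_fm W f hw) (le_fm W g hw)

theorem fm_smul {α : Type} (W : Finset α) (c : ℝ) (hc : 0 ≤ c) (f : α → ℝ) : W.fold max 0 (fun w => c * f w) = c * W.fold max 0 f := by
  classical
  induction W using Finset.induction_on with
  | empty => rw [Finset.fold_empty, Finset.fold_empty, mul_zero]
  | insert a s ha ih => rw [Finset.fold_insert ha, Finset.fold_insert ha, ih, mul_max_of_nonneg _ _ hc]

/-- `Finset.induction_on` with `classical` -/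
theorem fm_meas {α X : Type} [MeasurableSpace X] (W : Finset α) (f : α → X → ℝ) (h : ∀ w ∈ W, Measurable (f w)) :
    Measurable (fun x => W.fold max 0 (fun w => f w x)) := by
  classical
  induction W using Finset.induction_on with
  | empty =>
    simp only [Finset.fold_empty]
    exact measurable_const
  | insert a s ha ih =>
    simp only [Finset.fold_insert ha]
    exact (h a (mem_insert_self a s)).max (ih fun w hw => h w (mem_insert_of_mem hw))

theorem fm_cont {α X : Type} [TopologicalSpace X] (W : Finset α) (f : α → X → ℝ) (h : ∀ w ∈ W, Continuous (f w)) :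
    Continuous (fun x => W.fold max 0 (fun w => f w x)) := by
  classical
  induction W using Finset.induction_on with
  | empty =>
    simp only [Finset.fold_empty]
    exact continuous_const
  | insert a s ha ih =>
    simp only [Finset.fold_insert ha]
    exact (h a (mem_insert_self a s)).max (ih fun w hw => h w (mem_insert_of_mem hw))

/-- The mean of a function of small `L¹` norm against all words of modulus at most one: `max_w ‖(∑ w_j h(τ_{mm j} x))/J‖ ≤ (∑ |h(τ_{mm j} x)|)/J`, and `τ` preserves `m`. -/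
theorem int_fm_le {X : Type} [MeasurableSpace X] {m : Measure X} [IsProbabilityMeasure m] {τ : ℤ → X → X} (hτ : IsAct m τ)
    (h : X → ℝ) (hh : Measurable h) (C : ℝ) (hC : ∀ x, |h x| ≤ C) (W : Finset (ℕ → ℂ)) (hW : ∀ w ∈ W, ∀ n, ‖w n‖ ≤ 1) (J mm : ℕ) :
    ∫ x, W.fold max 0 (fun w => ‖(∑ j ∈ range J, w j * (h (τ ((mm : ℤ) * (j : ℤ)) x) : ℂ)) / (J : ℂ)‖) ∂m ≤ ∫ x, |h x| ∂m := by
  have hC0 : 0 ≤ ∫ x, |h x| ∂m := integral_nonneg fun x => abs_nonneg _
  have hint : Integrable (fun x => |h x|) m := by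
    refine Integrable.of_bound hh.abs.aestronglyMeasurable C (Eventually.of_forall fun x => ?_)
    rw [Real.norm_eq_abs, abs_abs]
    exact hC x
  have hintn : ∀ n : ℤ, Integrable (fun x => |h (τ n x)|) m := by
    intro n
    refine Integrable.of_bound (hh.comp (hτ.mp n).measurable).abs.aestronglyMeasurable C
      (Eventually.of_forall fun x => ?_)
    rw [Real.norm_eq_abs, abs_abs]
    exact hC _
  have hpt : ∀ x, W.fold max 0 (fun w => ‖(∑ j ∈ range J, w j * (h (τ ((mm : ℤ) * (j : ℤ)) x) : ℂ)) / (J : ℂ)‖) ≤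
      (∑ j ∈ range J, |h (τ ((mm : ℤ) * (j : ℤ)) x)|) / (J : ℝ) := by
    intro x
    refine fm_le W _ _ (div_nonneg (sum_nonneg fun j _ => abs_nonneg _) (Nat.cast_nonneg J)) fun w hw => ?_
    rw [norm_div, Complex.norm_natCast]
    refine div_le_div_of_nonneg_right ?_ (Nat.cast_nonneg J)
    refine (norm_sum_le _ _).trans (sum_le_sum fun j _ => ?_)
    rw [norm_mul, Complex.norm_real, Real.norm_eq_abs]
    exact mul_le_of_le_one_left (abs_nonneg _) (hW w hw j)
  have hmeas : Measurable (fun x => W.fold max 0 (fun w => ‖(∑ j ∈ range J, w j * (h (τ ((mm : ℤ) * (j : ℤ)) x) : ℂ)) / (J : ℂ)‖)) := by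
    refine fm_meas W _ fun w _ => ?_
    refine Measurable.norm (Measurable.div_const ?_ _)
    refine Finset.measurable_sum _ fun j _ => ?_
    exact (Complex.measurable_ofReal.comp (hh.comp (hτ.mp _).measurable)).const_mul (w j)
  have hsum : Integrable (fun x => (∑ j ∈ range J, |h (τ ((mm : ℤ) * (j : ℤ)) x)|) / (J : ℝ)) m :=
    (integrable_finsetSum _ fun j _ => hintn _).div_const _
  have h1 : Integrable (fun x => W.fold max 0 (fun w => ‖(∑ j ∈ range J, w j * (h (τ ((mm : ℤ) * (j : ℤ)) x) : ℂ)) / (J : ℂ)‖)) m := by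
    refine hsum.mono' hmeas.aestronglyMeasurable (Eventually.of_forall fun x => ?_)
    rw [Real.norm_eq_abs, abs_of_nonneg (fm_nonneg W _)]
    exact hpt x
  refine (integral_mono h1 hsum hpt).trans ?_
  rw [integral_div, integral_finsetSum _ fun j _ => hintn _]
  have h2 : ∀ n : ℤ, ∫ x, |h (τ n x)| ∂m = ∫ x, |h x| ∂m := by
    intro n
    have h3 := integral_map (μ := m) (φ := τ n) (hτ.mp n).measurable.aemeasurable
      (f := fun y => |h y|) (hh.abs.aestronglyMeasurable)
    rw [(hτ.mp n).map_eq] at h3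
    exact h3.symm
  rw [sum_congr rfl fun j _ => h2 _, sum_const, card_range, nsmul_eq_mul]
  rcases Nat.eq_zero_or_pos J with hJ | hJ
  · rw [hJ, Nat.cast_zero, zero_mul, zero_div]
    exact hC0
  · have hJ' : (J : ℝ) ≠ 0 := by exact_mod_cast hJ.ne'
    rw [mul_div_cancel_left₀ _ hJ']

theorem pav_le (P : ℕ) (f g : ℕ → ℝ) (h : ∀ p ∈ PP P, f p ≤ g p) : pav P f ≤ pav P g :=
  div_le_div_of_nonneg_right (sum_le_sum h) (Nat.cast_nonneg _)

/-- `pav P` of a constant is the constant, or `0` if there are no primes -/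
theorem pav_le_const (P : ℕ) (f : ℕ → ℝ) (c : ℝ) (hc : 0 ≤ c) (h : ∀ p ∈ PP P, f p ≤ c) : pav P f ≤ c := by
  unfold pav
  refine div_le_of_le_mul₀ (Nat.cast_nonneg _) hc ?_
  refine (sum_le_sum h).trans ?_
  rw [sum_const, nsmul_eq_mul, mul_comm]

theorem pav_add (P : ℕ) (f g : ℕ → ℝ) : pav P (fun p => f p + g p) = pav P f + pav P g := by
  unfold pav
  rw [sum_add_distrib, add_div]

end Pool.Agent.Lib.MP_3e612f_nt.ZE
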