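import Pool.Agent.Lib.MP_3e612f_nt.ZE.G.L
import Pool.Agent.Lib.MP_3e612f_nt.ZE.H.Defs

/-! Theorem L in the form used in part H. -/

set_option autoImplicit false

namespace Pool.Agent.Lib.MP_3e612f_nt.ZE

open Finset MeasureTheory Filter Topology
open Pool.Agent.Lib.MP_3e612f_nt.PI (mc)

theorem stmtL : StmtL := by
  intro V hV ε hε
  obtain ⟨K, t, δ, ht, hδ, H⟩ := thmL V hV ε hε
  refine ⟨K, t, δ, ht, hδ, fun Hm => ?_⟩
  obtain ⟨J₀, -, hJ⟩ := H Hm
  refine ⟨J₀, fun J hJJ W hW hc hw => ?_⟩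
  have h := hJ J hJJ W hW hc hw
  have e : maxw W J = fun n => W.fold max 0 (fun w => ‖(∑ j ∈ range J, w j * ((ArithmeticFunction.moebius (n + j) : ℝ) : ℂ)) / (J : ℂ)‖) := by
    funext n
    unfold maxw
    congr 1
    funext w
    have e2 : ∑ j ∈ range J, mc (n + j) * w j = ∑ j ∈ range J, w j * ((ArithmeticFunction.moebius (n + j) : ℝ) : ℂ) := by
      refine Finset.sum_congr rfl fun j _ => ?_
      rw [mul_comm]
      congr 1
    rw [e2]
  rw [e]
  exact h

end Pool.Agent.Lib.MP_3e612f_nt.ZE
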