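import Pool.Agent.Lib.MP_3e612f_nt.ZE.G.Mx
import Pool.Agent.Lib.MP_3e612f_nt.ZE.D.Main
import Pool.Agent.Lib.MP_3e612f_nt.ZE.F.Cor
import Pool.Agent.Lib.MP_3e612f_nt.ZE.E.Main

/-! Theorem U: uniform bound over exponentially many words. -/

set_option autoImplicit false

namespace Pool.Agent.Lib.MP_3e612f_nt.ZE

open Finset MeasureTheory Filter Topology

/-- The modulus of the mean of `h` along the multiples of `mm` against the word `w`. -/
private noncomputable def uVal {X : Type} (τ : ℤ → X → X) (J mm : ℕ) (h : X → ℝ) (w : ℕ → ℂ) (x : X) : ℝ :=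
  ‖(∑ j ∈ range J, w j * (h (τ ((mm : ℤ) * (j : ℤ)) x) : ℂ)) / (J : ℂ)‖

private theorem uVal_le {X : Type} (τ : ℤ → X → X) (J mm : ℕ) {h : X → ℝ} {C : ℝ} (hC0 : 0 ≤ C)
    (hC : ∀ x, |h x| ≤ C) {w : ℕ → ℂ} (hw : ∀ n, ‖w n‖ ≤ 1) (x : X) : uVal τ J mm h w x ≤ C := by
  unfold uVal
  rw [norm_div, Complex.norm_natCast]
  refine div_le_of_le_mul₀ (Nat.cast_nonneg _) hC0 ?_
  calc ‖∑ j ∈ range J, w j * (h (τ ((mm : ℤ) * (j : ℤ)) x) : ℂ)‖
      ≤ ∑ j ∈ range J, ‖w j * (h (τ ((mm : ℤ) * (j : ℤ)) x) : ℂ)‖ := norm_sum_le _ _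
    _ ≤ ∑ _j ∈ range J, C := by
        refine Finset.sum_le_sum fun j _ => ?_
        rw [norm_mul, Complex.norm_real, Real.norm_eq_abs]
        calc ‖w j‖ * |h (τ ((mm : ℤ) * (j : ℤ)) x)| ≤ 1 * C :=
              mul_le_mul (hw j) (hC _) (abs_nonneg _) zero_le_one
          _ = C := one_mul C
    _ = C * J := by
        rw [Finset.sum_const, Finset.card_range, nsmul_eq_mul, mul_comm]

private theorem uVal_meas {X : Type} [MeasurableSpace X] {m : Measure X} {τ : ℤ → X → X} (hτ : IsAct m τ)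
    (J mm : ℕ) {h : X → ℝ} (hh : Measurable h) (w : ℕ → ℂ) : Measurable (uVal τ J mm h w) := by
  unfold uVal
  refine Measurable.norm (Measurable.div_const ?_ _)
  refine Finset.measurable_fun_sum _ fun j _ => Measurable.const_mul ?_ _
  exact Complex.measurable_ofReal.comp (hh.comp (hτ.mp _).measurable)

private theorem uInt {X : Type} [MeasurableSpace X] {m : Measure X} [IsProbabilityMeasure m] {τ : ℤ → X → X}
    (hτ : IsAct m τ) (J mm : ℕ) {h : X → ℝ} (hh : Measurable h) {C : ℝ} (hC0 : 0 ≤ C) (hC : ∀ x, |h x| ≤ C)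
    (W : Finset (ℕ → ℂ)) (hW : ∀ w ∈ W, ∀ n, ‖w n‖ ≤ 1) :
    Integrable (fun x => W.fold max 0 (fun w => uVal τ J mm h w x)) m := by
  refine Integrable.of_bound (C := C) ?_ (Eventually.of_forall fun x => ?_)
  · exact (fm_meas W (fun w x => uVal τ J mm h w x) fun w _ => uVal_meas hτ J mm hh w).aestronglyMeasurable
  · rw [Real.norm_eq_abs, abs_of_nonneg (fm_nonneg W _)]
    exact fm_le W _ C hC0 fun w hw => uVal_le τ J mm hC0 hC (hW w hw) x

private theorem uVal_split {X : Type} (τ : ℤ → X → X) (J mm : ℕ) (F g h₁ h₂ A : X → ℝ)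
    (hF : ∀ x, F x = 2 * g x + h₁ x + h₂ x + A x) (w : ℕ → ℂ) (x : X) :
    uVal τ J mm F w x ≤ (2 * uVal τ J mm g w x + uVal τ J mm h₁ w x) +
      (uVal τ J mm h₂ w x + uVal τ J mm A w x) := by
  unfold uVal
  have h1 : (∑ j ∈ range J, w j * (F (τ ((mm : ℤ) * (j : ℤ)) x) : ℂ)) / (J : ℂ) =
      (2 * ((∑ j ∈ range J, w j * (g (τ ((mm : ℤ) * (j : ℤ)) x) : ℂ)) / (J : ℂ)) +
        (∑ j ∈ range J, w j * (h₁ (τ ((mm : ℤ) * (j : ℤ)) x) : ℂ)) / (J : ℂ)) +
      ((∑ j ∈ range J, w j * (h₂ (τ ((mm : ℤ) * (j : ℤ)) x) : ℂ)) / (J : ℂ) +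
        (∑ j ∈ range J, w j * (A (τ ((mm : ℤ) * (j : ℤ)) x) : ℂ)) / (J : ℂ)) := by
    rw [← mul_div_assoc, ← add_div, ← add_div, ← add_div, Finset.mul_sum, ← Finset.sum_add_distrib,
      ← Finset.sum_add_distrib, ← Finset.sum_add_distrib]
    congr 1
    refine Finset.sum_congr rfl fun j _ => ?_
    rw [hF]
    push_cast
    ring
  rw [h1]
  refine (norm_add_le _ _).trans (add_le_add ((norm_add_le _ _).trans (add_le_add ?_ le_rfl)) (norm_add_le _ _))
  rw [norm_mul]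
  simp

private theorem uExp {c ρ : ℝ} (hc : 0 < c) (hρ : 0 < ρ) : ∃ J₀ : ℕ, ∀ J ≥ J₀, Real.exp (-(c * (J : ℕ))) ≤ ρ := by
  have h1 : Tendsto (fun J : ℕ => Real.exp (-(c * (J : ℝ)))) atTop (𝓝 0) := by
    refine Real.tendsto_exp_neg_atTop_nhds_zero.comp ?_
    exact (tendsto_natCast_atTop_atTop (R := ℝ)).const_mul_atTop hc
  have h2 := (h1.eventually (gt_mem_nhds hρ)).exists_forall_of_atTop
  obtain ⟨J₀, hJ₀⟩ := h2
  exact ⟨J₀, fun J hJ => (hJ₀ J hJ).le⟩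

private theorem uRoot {CA ρ : ℝ} (hCA : 0 ≤ CA) (hρ : 0 < ρ) (K : ℕ) : ∃ t : ℝ, 0 < t ∧
    CA * (t + t) ^ ((1 : ℝ) / 2 ^ (K + 1)) ≤ ρ := by
  obtain ⟨z, hz⟩ : ∃ z : ℝ, z = ρ / (CA + 1) := ⟨_, rfl⟩
  have hz0 : 0 < z := by
    rw [hz]
    positivity
  refine ⟨z ^ (2 ^ (K + 1)) / 2, by positivity, ?_⟩
  have h1 : (z ^ (2 ^ (K + 1)) / 2 + z ^ (2 ^ (K + 1)) / 2) ^ ((1 : ℝ) / 2 ^ (K + 1)) = z := by
    rw [add_halves, ← Real.rpow_natCast, ← Real.rpow_mul hz0.le]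
    have h : (((2 ^ (K + 1) : ℕ) : ℝ)) * ((1 : ℝ) / 2 ^ (K + 1)) = 1 := by
      push_cast
      field_simp
    rw [h, Real.rpow_one]
  rw [h1, hz]
  rw [← mul_div_assoc, div_le_iff₀ (by positivity)]
  nlinarith

/-- Theorem U. `G` from `structured`; `K = K₁` for `η = ε/16`; `A ∈ Alg m τ K` with `∫ |G K - A| ≤ ε/16`; `CA` from `alg_bound`; `t > 0` with `CA (2t)^(1/2^(K+1)) ≤ ε/8`; `e = ε/32`, `δ = e²/4`.
Given `Hmax`: `J₀` = maximum of the `J₀` of `alg_bound` for `H ≤ Hmax`, `η = t`, and so large that `8 exp(-e² J/4) ≤ ε/8`. Given `J`, `W`: `K' = max J K`, `g' = (F - G K')/2`, `Null m τ i g'` for `i ≤ K'`; `F = 2 g' + (G K' - G K) + (G K - A) + A` pointwise.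
First part: `maxw_le` (`d = ε/16`): at most `2 (2e + 4 |W| exp(-e² J/2) + d) ≤ 3ε/8`. Second and third: `int_fm_le`: at most `ε/16` each. Last: `alg_bound` for each of the finitely many `w` (with its own `H`), almost everywhere: at most `ε/8`. -/
theorem thmU {X : Type} [MeasurableSpace X] {m : Measure X} [IsProbabilityMeasure m] {τ : ℤ → X → X} (hτ : IsAct m τ)
    (F : X → ℝ) (hF : Measurable F) (hb : ∀ x, |F x| ≤ 1) (ε : ℝ) (hε : 0 < ε) :
    ∃ (K : ℕ) (t δ : ℝ), 0 < t ∧ 0 < δ ∧ ∀ Hmax : ℕ, ∃ J₀ : ℕ, ∀ J ≥ J₀, ∀ W : Finset (ℕ → ℂ), (∀ w ∈ W, ∀ n, ‖w n‖ ≤ 1) →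
      (W.card : ℝ) ≤ Real.exp (δ * J) →
      (∀ w ∈ W, ∃ H : ℕ, 1 ≤ H ∧ H ≤ Hmax ∧ (∑ j ∈ range J, psi H K w j) / (J : ℝ) ≤ t) →
      ∀ᶠ P in atTop, pav P (fun p => ∫ x, W.fold max 0 (fun w =>
        ‖(∑ j ∈ range J, w j * (F (τ ((p : ℤ) * (j : ℤ)) x) : ℂ)) / (J : ℂ)‖) ∂m) ≤ ε := by
  obtain ⟨G, hG, hG1, hnull, hCau, hAlg⟩ := structured hτ F hF hb
  obtain ⟨K, hK⟩ := hCau (ε / 16) (by positivity)
  obtain ⟨A, hA, hAint⟩ := hAlg K (ε / 16) (by positivity)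
  obtain ⟨CA, hCA, hCAb⟩ := alg_bound hτ K A hA
  obtain ⟨t, ht, htb⟩ := uRoot hCA (show (0 : ℝ) < ε / 8 by positivity) K
  obtain ⟨hAm, C₀, hC₀⟩ := alg_bdd K A hA
  have hdp : (0 : ℝ) < (ε / 32) ^ 2 / 4 := by positivity
  refine ⟨K, t, (ε / 32) ^ 2 / 4, ht, hdp, fun Hmax => ?_⟩
  have hJx : ∀ H : ℕ, ∃ J₀ : ℕ, 1 ≤ H → ∀ J ≥ J₀, ∀ (w : ℕ → ℂ), (∀ n, ‖w n‖ ≤ 1) →
      (∑ j ∈ range J, psi H K w j) / (J : ℝ) ≤ t → ∀ mm : ℕ,
        ∀ᵐ x ∂m, ‖(∑ j ∈ range J, w j * (A (τ ((mm : ℤ) * (j : ℤ)) x) : ℂ)) / (J : ℂ)‖ ≤ ε / 8 := by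
    intro H
    by_cases hH : 1 ≤ H
    · obtain ⟨J₀, hJ₀⟩ := hCAb H t hH ht
      refine ⟨J₀, fun _ J hJ w hw hψ mm => ?_⟩
      filter_upwards [hJ₀ J hJ w t hw ht.le hψ mm] with x hx
      exact hx.trans htb
    · exact ⟨0, fun h => absurd h hH⟩
  choose J₁ hJ₁ using hJx
  obtain ⟨J₂, hJ₂⟩ := uExp hdp (show (0 : ℝ) < ε / 64 by positivity)
  refine ⟨max 1 (max J₂ ((range (Hmax + 1)).sup J₁)), fun J hJ W hW hWc hWψ => ?_⟩
  have hJ1 : 1 ≤ J := (le_max_left _ _).trans hJ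
  have hJ2 : J₂ ≤ J := ((le_max_left _ _).trans (le_max_right _ _)).trans hJ
  have hJ3 : (range (Hmax + 1)).sup J₁ ≤ J := ((le_max_right _ _).trans (le_max_right _ _)).trans hJ
  obtain ⟨K', hK'⟩ : ∃ K', K' = max J K := ⟨_, rfl⟩
  have hJK : J ≤ K' := hK' ▸ le_max_left _ _
  have hKK : K ≤ K' := hK' ▸ le_max_right _ _
  have hgm : Measurable fun x => (F x - G K' x) / 2 := (hF.sub (hG K')).div_const 2
  have hgb : ∀ x, |(F x - G K' x) / 2| ≤ 1 := by
    intro x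
    rw [abs_div, abs_two]
    have h1 := abs_sub (F x) (G K' x)
    have h2 := hb x
    have h3 := hG1 K' x
    linarith
  have hmax := maxw_le hτ (g := fun x => (F x - G K' x) / 2) ⟨hgm, hgb⟩ J hJ1
    (fun i hi => hnull K' i (by omega)) W hW (e := ε / 32) (d := ε / 16) (by positivity) (by positivity)
  -- the numerical bound
  have hnum : 2 * (ε / 32) + 4 * (W.card : ℝ) * Real.exp (-((ε / 32) ^ 2 * J / 2)) + ε / 16 ≤ 3 * ε / 16 := by
    have h1 := hJ₂ J hJ2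
    have h2 : (W.card : ℝ) * Real.exp (-((ε / 32) ^ 2 * J / 2)) ≤ Real.exp (-((ε / 32) ^ 2 / 4 * (J : ℝ))) := by
      calc (W.card : ℝ) * Real.exp (-((ε / 32) ^ 2 * J / 2))
          ≤ Real.exp ((ε / 32) ^ 2 / 4 * J) * Real.exp (-((ε / 32) ^ 2 * J / 2)) :=
            mul_le_mul_of_nonneg_right hWc (Real.exp_pos _).le
        _ = Real.exp (-((ε / 32) ^ 2 / 4 * (J : ℝ))) := by
            rw [← Real.exp_add]
            congr 1
            ring
    have h3 : 4 * (W.card : ℝ) * Real.exp (-((ε / 32) ^ 2 * J / 2)) =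
        4 * ((W.card : ℝ) * Real.exp (-((ε / 32) ^ 2 * J / 2))) := by ring
    rw [h3]
    linarith
  -- the three small functions
  have h1m : Measurable fun x => G K' x - G K x := (hG K').sub (hG K)
  have h1b : ∀ x, |G K' x - G K x| ≤ 2 := by
    intro x
    have h1 := abs_sub (G K' x) (G K x)
    have h2 := hG1 K' x
    have h3 := hG1 K x
    linarith
  have h2m : Measurable fun x => G K x - A x := (hG K).sub hAm
  have hCA0 : 0 ≤ |C₀| := abs_nonneg _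
  have hCAx : ∀ x, |A x| ≤ |C₀| := fun x => (hC₀ x).trans (le_abs_self _)
  have h2b : ∀ x, |G K x - A x| ≤ 1 + |C₀| := by
    intro x
    have h1 := abs_sub (G K x) (A x)
    have h2 := hG1 K x
    have h3 := hCAx x
    linarith
  have hsplit : ∀ x, F x = 2 * ((F x - G K' x) / 2) + (G K' x - G K x) + (G K x - A x) + A x := by
    intro x
    ring
  -- one prime
  have hone : ∀ p : ℕ, ∫ x, W.fold max 0 (fun w => uVal τ J p F w x) ∂m ≤
      ((∫ x, W.fold max 0 (fun w => uVal τ J p (fun x => (F x - G K' x) / 2) w x) ∂m) +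
        (∫ x, W.fold max 0 (fun w => uVal τ J p (fun x => (F x - G K' x) / 2) w x) ∂m)) + ε / 4 := by
    intro p
    have i0 := uInt hτ J p hF zero_le_one hb W hW
    have i1 := uInt hτ J p hgm zero_le_one hgb W hW
    have i2 := uInt hτ J p h1m zero_le_two h1b W hW
    have i3 := uInt hτ J p h2m (by positivity) h2b W hW
    have i4 := uInt hτ J p hAm hCA0 hCAx W hW
    have b2 := int_fm_le hτ (fun x => G K' x - G K x) h1m 2 h1b W hW J p
    have b3 := int_fm_le hτ (fun x => G K x - A x) h2m (1 + |C₀|) h2b W hW J p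
    have b4 : ∫ x, W.fold max 0 (fun w => uVal τ J p A w x) ∂m ≤ ε / 8 := by
      have hae : ∀ᵐ x ∂m, ∀ w ∈ W, uVal τ J p A w x ≤ ε / 8 := by
        refine (Finset.eventually_all W).2 fun w hw => ?_
        obtain ⟨H, hH1, hH2, hψ⟩ := hWψ w hw
        refine hJ₁ H hH1 J ?_ w (hW w hw) hψ p
        exact (Finset.le_sup (f := J₁) (Finset.mem_range.2 (by omega))).trans hJ3
      have h1 : ∫ x, W.fold max 0 (fun w => uVal τ J p A w x) ∂m ≤ ∫ _x, ε / 8 ∂m := by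
        refine integral_mono_ae i4 (integrable_const _) ?_
        filter_upwards [hae] with x hx
        exact fm_le W _ _ (by positivity) hx
      rw [integral_const] at h1
      simpa only [probReal_univ, one_smul] using h1
    have hpt : ∀ x, W.fold max 0 (fun w => uVal τ J p F w x) ≤
        (2 * W.fold max 0 (fun w => uVal τ J p (fun x => (F x - G K' x) / 2) w x) +
          W.fold max 0 (fun w => uVal τ J p (fun x => G K' x - G K x) w x)) +
        (W.fold max 0 (fun w => uVal τ J p (fun x => G K x - A x) w x) +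
          W.fold max 0 (fun w => uVal τ J p A w x)) := by
      intro x
      refine (fm_mono W _ _ fun w _ => uVal_split τ J p F _ _ _ A hsplit w x).trans ?_
      refine (fm_add W _ _).trans (add_le_add ?_ (fm_add W _ _))
      refine (fm_add W _ _).trans (add_le_add ?_ le_rfl)
      rw [fm_smul W 2 zero_le_two]
    have hint : ∫ x, W.fold max 0 (fun w => uVal τ J p F w x) ∂m ≤
        (2 * (∫ x, W.fold max 0 (fun w => uVal τ J p (fun x => (F x - G K' x) / 2) w x) ∂m) +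
          ∫ x, W.fold max 0 (fun w => uVal τ J p (fun x => G K' x - G K x) w x) ∂m) +
        ((∫ x, W.fold max 0 (fun w => uVal τ J p (fun x => G K x - A x) w x) ∂m) +
          ∫ x, W.fold max 0 (fun w => uVal τ J p A w x) ∂m) := by
      refine (integral_mono i0 (((i1.const_mul 2).add i2).add (i3.add i4)) hpt).trans (le_of_eq ?_)
      rw [integral_add' ((i1.const_mul 2).add i2) (i3.add i4), integral_add' (i1.const_mul 2) i2,
        integral_add' i3 i4, integral_const_mul]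
    have c2 : ∫ x, W.fold max 0 (fun w => uVal τ J p (fun x => G K' x - G K x) w x) ∂m ≤ ε / 16 :=
      b2.trans (hK K' hKK)
    have c3 : ∫ x, W.fold max 0 (fun w => uVal τ J p (fun x => G K x - A x) w x) ∂m ≤ ε / 16 :=
      b3.trans hAint
    linarith
  filter_upwards [hmax] with P hP
  have hP' : pav P (fun p => ∫ x, W.fold max 0 (fun w => uVal τ J p (fun x => (F x - G K' x) / 2) w x) ∂m) ≤
      3 * ε / 16 := hP.trans hnum
  have hfin : pav P (fun p => ∫ x, W.fold max 0 (fun w => uVal τ J p F w x) ∂m) ≤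
      (pav P (fun p => ∫ x, W.fold max 0 (fun w => uVal τ J p (fun x => (F x - G K' x) / 2) w x) ∂m) +
        pav P (fun p => ∫ x, W.fold max 0 (fun w => uVal τ J p (fun x => (F x - G K' x) / 2) w x) ∂m)) +
      ε / 4 := by
    refine (pav_le P _ _ fun p _ => hone p).trans ?_
    rw [pav_add, pav_add]
    exact add_le_add le_rfl (pav_le_const P _ _ (by positivity) fun p _ => le_rfl)
  calc pav P (fun p => ∫ x, W.fold max 0 (fun w =>
        ‖(∑ j ∈ range J, w j * (F (τ ((p : ℤ) * (j : ℤ)) x) : ℂ)) / (J : ℂ)‖) ∂m)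
      ≤ _ := hfin
    _ ≤ ε := by linarith

end Pool.Agent.Lib.MP_3e612f_nt.ZE
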